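import Pool.Agent.Q21.SG.W

/-!
# Infinitely many finite groups whose soluble graph has diameter at least four

`radical G` is the soluble radical and `solubleGraph G` the soluble graph (on the elements outside
the radical, `x` and `y` adjacent when they are distinct and generate a soluble subgroup).
The groups are the groups of semilinear automorphisms of `F_{q^5}` over `F_q`, `q = 32 ^ m`,
`m` odd, with field automorphisms of order dividing five, modulo scalars.  Two conjugate Singer
cycles in general position are at distance at least four.
-/

namespace Pool.Agent.Results.MP_7523db_al.InfinitelyMany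

open Pool.Agent.Q21.SG

theorem result : ∃ (G : ℕ → Type) (_ : ∀ n, Group (G n)),
    (∀ n, Finite (G n) ∧ ¬ Group.IsSolvable (G n) ∧ radical (G n) = ⊥ ∧
      ∃ x y : {x : G n // x ∉ radical (G n)}, 4 ≤ (solubleGraph (G n)).edist x y) ∧
    ∀ i j, i ≠ j → IsEmpty (G i ≃* G j) := by
  choose H gH hH using exists_group
  let a : ℕ → ℕ := fun k => Nat.rec 0 (fun _ b => Nat.card (H b) + 1) k
  have ha : ∀ k, a (k + 1) = Nat.card (H (a k)) + 1 := fun k => rfl
  refine ⟨fun k => H (a k), fun k => gH (a k), fun k => ?_, ?_⟩
  · obtain ⟨h1, h2, h3, h4⟩ := hH (a k)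
    exact ⟨h1, h4.not_solvable, h4.radical_eq, h4.edist⟩
  · have hmono : StrictMono (fun k => Nat.card (H (a k))) := by
      apply strictMono_nat_of_lt_succ
      intro k
      have h1 := (hH (a (k + 1))).2.1
      rw [ha k] at h1 ⊢
      omega
    intro i j hij
    refine ⟨fun e => hij (hmono.injective ?_)⟩
    exact Nat.card_congr e.toEquiv

end Pool.Agent.Results.MP_7523db_al.InfinitelyMany
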